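import Mathlib
import Pool.Agent.Helper3_PPE.Stmts
import Pool.Agent.Helper52_PPX.Ngc
import Pool.Agent.Helper52_PPX.Htl
import Pool.Agent.Helper83_PPZ.Nod

/-!
# Squad PPE, module NOD: numbers of nodes and heights
-/

set_option autoImplicit false

universe u

namespace Pool.Agent.PPE.H83

open MvPolynomial PGH PPX PPZ

theorem nod (K : ℕ) : NodStmt.{u} K := by
  intro k _ _ _ N₁ N₂ a b ha hb C
  have hconst : ∀ c : k, C.D (algebraMap k C.E c) = 0 := fun c => (C.ker _).2 ⟨c, rfl⟩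
  obtain ⟨⟨S, hS, hS1, hS2⟩, hZ⟩ := PPX.H52.ngc C.D C.cp C.sc C.bd C.bp a b C.x C.z ha hb
    (fun i => hconst _) (fun j => hconst _) C.dx C.dz C.pat
  have hbad := C.bad
  have hK : 20 * (ht k C.x + ht k C.z) ≤ K * (ht k C.x + ht k C.z) :=
    Nat.mul_le_mul_right _ C.hK
  have hxa : ∀ i, C.x - algebraMap k C.E (a i) ≠ 0 := by
    intro i h
    apply C.dx
    rw [sub_eq_zero.1 h]
    exact hconst _
  -- finiteness
  have hfin : C.nodes.Finite := by
    have h1 : (⋃ i : Fin N₁, {P : Place k C.E | P.ord (C.x - algebraMap k C.E (a i)) ≠ 0}).Finite :=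
      Set.finite_iUnion fun i => finite_support (L := k) _
    refine h1.subset ?_
    rintro P ⟨i, j, hP⟩
    refine Set.mem_iUnion.2 ⟨i, ?_⟩
    change P.ord _ ≠ 0
    rw [hP.2.1]
    exact one_ne_zero
  have hSn : S.card ≤ C.n := by
    rw [← Set.ncard_coe_finset]
    refine Set.ncard_le_ncard ?_ hfin
    intro P hP
    exact hS P hP
  obtain ⟨ht1, ht2⟩ := PPX.H52.htl C.D C.cp C.sc C.bp a b C.x C.z
    (fun i => hconst _) (fun j => hconst _) C.dx C.dz _ hZ
  have hh : C.h = ht k C.x + ht k C.z := rfl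
  have h0 : 0 < C.h := by
    rw [hh]
    rcases Nat.eq_zero_or_pos (ht k C.x + ht k C.z) with h | h
    · rw [h, Nat.mul_zero] at hbad
      omega
    · exact h
  rw [← hh] at hbad hK
  have e1 : N₁ * ht k C.x ≤ C.n + K * C.h := by
    omega
  have e2 : N₂ * ht k C.z ≤ C.n + K * C.h := by
    omega
  refine ⟨hfin, h0, e1, e2, ?_, ?_, ?_, ?_, ?_, ?_, ?_⟩
  · intro N hN h1 h2
    have h3 : N * C.h ≤ N₁ * ht k C.x + N₂ * ht k C.z := by
      rw [hh, Nat.mul_add]
      exact Nat.add_le_add (Nat.mul_le_mul_right _ h1) (Nat.mul_le_mul_right _ h2)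
    have h4 : 4 * K * C.h ≤ N * C.h := Nat.mul_le_mul_right _ hN
    rw [Nat.mul_assoc] at h4
    omega
  · change ht k (PPX.th C.D C.x C.z) ≤ _
    omega
  · change ht k (PPX.la C.D (fun i => algebraMap k C.E (a i)) (fun j => algebraMap k C.E (b j))
      C.x C.z) ≤ _
    omega
  · intro i
    exact PPZ.H83.card_zeros C.x (a i) _ (hfin.subset fun P hP => hP.1) fun P hP => hP.2
  · intro j
    exact PPZ.H83.card_zeros C.z (b j) _ (hfin.subset fun P hP => hP.1) fun P hP => hP.2
  · intro c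
    constructor
    · intro h
      exact C.dx (h ▸ hconst c)
    · intro h
      exact C.dz (h ▸ hconst c)
  · exact div_ne_zero C.dx C.dz

end Pool.Agent.PPE.H83
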